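import Pool.Agent.Helper41.LD.Defs

/-!
# Project LD, block WA: integrals of one Haar function, the martingale
-/

set_option autoImplicit false

namespace Pool.Agent.Helper34.LD

open Set MeasureTheory Filter Topology
open Pool.Agent.Helper41.LD

/-! ### Elementary facts on the indicators -/

theorem ind_nonneg (k i : ℕ) (t : ℝ) : 0 ≤ ind k i t := by
  unfold ind
  split_ifs <;> norm_num

theorem ind_le_one (k i : ℕ) (t : ℝ) : ind k i t ≤ 1 := by
  unfold ind
  split_ifs <;> norm_num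

theorem measurable_ind (k i : ℕ) : Measurable (ind k i) := by
  unfold ind
  refine Measurable.ite ?_ measurable_const measurable_const
  have h1 : Measurable fun t : ℝ => ⌊(2 : ℝ) ^ k * Int.fract t⌋ :=
    Int.measurable_floor.comp (measurable_const.mul measurable_fract)
  exact h1 (measurableSet_singleton (i : ℤ))

theorem measurable_haar (k i : ℕ) : Measurable (haar k i) := (measurable_ind _ _).sub (measurable_ind _ _)

theorem haar_abs_le (k i : ℕ) (t : ℝ) : |haar k i t| ≤ 1 := by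
  unfold haar
  have h1 := ind_nonneg (k + 1) (2 * i) t
  have h2 := ind_le_one (k + 1) (2 * i) t
  have h3 := ind_nonneg (k + 1) (2 * i + 1) t
  have h4 := ind_le_one (k + 1) (2 * i + 1) t
  rw [abs_le]
  constructor <;> linarith

theorem ind_periodic (k i : ℕ) : Function.Periodic (ind k i) 1 := by
  intro t
  unfold ind
  rw [Int.fract_add_one]

theorem haar_periodic (k i : ℕ) : Function.Periodic (haar k i) 1 := by
  intro t
  unfold haar
  rw [ind_periodic, ind_periodic]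

/-- bounded measurable functions are interval integrable -/
theorem ii_of_bdd {f : ℝ → ℝ} (hf : Measurable f) {C : ℝ} (hC : ∀ t, |f t| ≤ C) (a b : ℝ) : IntervalIntegrable f volume a b := by
  refine (intervalIntegrable_const (c := C)).mono_fun' hf.aestronglyMeasurable (Eventually.of_forall fun t => ?_)
  simp only [Real.norm_eq_abs]
  exact hC t

theorem ind_abs_le (k i : ℕ) (t : ℝ) : |ind k i t| ≤ 1 := by
  rw [abs_of_nonneg (ind_nonneg _ _ _)]
  exact ind_le_one _ _ _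

theorem ii_ind (k i : ℕ) (a b : ℝ) : IntervalIntegrable (ind k i) volume a b := ii_of_bdd (measurable_ind k i) (ind_abs_le k i) a b

theorem ii_haar (k i : ℕ) (a b : ℝ) : IntervalIntegrable (haar k i) volume a b :=
  ii_of_bdd (measurable_haar k i) (haar_abs_le k i) a b

theorem ii_haar_lin (k i : ℕ) (α c a b : ℝ) : IntervalIntegrable (fun x => haar k i (α * x + c)) volume a b :=
  ii_of_bdd ((measurable_haar k i).comp (by fun_prop)) (fun _ => haar_abs_le k i _) a b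

theorem ii_ind_lin (k i : ℕ) (α c a b : ℝ) : IntervalIntegrable (fun x => ind k i (α * x + c)) volume a b :=
  ii_of_bdd ((measurable_ind k i).comp (by fun_prop)) (fun _ => ind_abs_le k i _) a b

theorem ii_haar_u (θ : ℝ) (c : ℕ → ℝ) (k i j : ℕ) (a b : ℝ) : IntervalIntegrable (fun x => haar k i (u θ c j x)) volume a b := by
  refine ii_of_bdd ((measurable_haar k i).comp ?_) (fun _ => haar_abs_le k i _) a b
  unfold u
  fun_prop

/-- indicators with a large index vanish -/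
theorem ind_big {k i : ℕ} (hi : 2 ^ k ≤ i) (t : ℝ) : ind k i t = 0 := by
  unfold ind
  rw [if_neg]
  intro h
  have h1 : (2 : ℝ) ^ k * Int.fract t < 2 ^ k := by
    have := Int.fract_lt_one t
    have h2 : (0 : ℝ) < 2 ^ k := by positivity
    nlinarith
  have h2 : ((⌊(2 : ℝ) ^ k * Int.fract t⌋ : ℤ) : ℝ) ≤ 2 ^ k * Int.fract t := Int.floor_le _
  rw [h] at h2
  have h3 : ((2 ^ k : ℕ) : ℝ) ≤ (i : ℝ) := by exact_mod_cast hi
  push_cast at h2 h3
  linarith

theorem haar_big {k i : ℕ} (hi : 2 ^ k ≤ i) (t : ℝ) : haar k i t = 0 := by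
  unfold haar
  have h : 2 ^ (k + 1) = 2 * 2 ^ k := pow_succ' 2 k
  rw [ind_big (by omega), ind_big (by omega), sub_zero]

theorem floor_iff (m : ℕ) (i : ℤ) (y : ℝ) : ⌊(2 : ℝ) ^ m * y⌋ = i ↔ (i : ℝ) ≤ 2 ^ m * y ∧ 2 ^ m * y < i + 1 := Int.floor_eq_iff

/-- the right half is the translate of the left half -/
theorem ind_shift {k i : ℕ} (hi : i < 2 ^ k) (t : ℝ) :
    ind (k + 1) (2 * i + 1) t = ind (k + 1) (2 * i) (t - (1 / 2) ^ (k + 1)) := by
  obtain ⟨s, hs⟩ : ∃ s : ℝ, s = (1 / 2) ^ (k + 1) := ⟨_, rfl⟩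
  have hs0 : 0 < s := by rw [hs]; positivity
  have h2s : (2 : ℝ) ^ (k + 1) * s = 1 := by
    rw [hs, ← mul_pow]
    norm_num
  rw [← hs]
  have hi1 : (i : ℝ) + 1 ≤ 2 ^ k := by exact_mod_cast hi
  have h2k : (2 : ℝ) ^ (k + 1) = 2 * 2 ^ k := pow_succ' 2 k
  have hP : (0 : ℝ) < 2 ^ (k + 1) := by positivity
  have key : ⌊(2 : ℝ) ^ (k + 1) * Int.fract t⌋ = ((2 * i + 1 : ℕ) : ℤ) ↔ ⌊(2 : ℝ) ^ (k + 1) * Int.fract (t - s)⌋ = ((2 * i : ℕ) : ℤ) := by
    rw [floor_iff, floor_iff]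
    push_cast
    constructor
    · rintro ⟨h1, h2⟩
      have h3 : s ≤ Int.fract t := by
        by_contra h
        push Not at h
        have h4 : (2 : ℝ) ^ (k + 1) * Int.fract t < 1 := by
          rw [← h2s]
          exact mul_lt_mul_of_pos_left h hP
        have h5 : (0 : ℝ) ≤ i := Nat.cast_nonneg i
        linarith
      have h4 : Int.fract (t - s) = Int.fract t - s := by
        rw [Int.fract_eq_iff]
        refine ⟨by linarith, by linarith [Int.fract_lt_one t], ⟨⌊t⌋, ?_⟩⟩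
        have := Int.self_sub_floor t
        linarith
      rw [h4, mul_sub, h2s]
      constructor <;> linarith
    · rintro ⟨h1, h2⟩
      have h4 : Int.fract t = Int.fract (t - s) + s := by
        rw [Int.fract_eq_iff]
        have h5 := Int.fract_nonneg (t - s)
        refine ⟨by linarith, ?_, ⟨⌊t - s⌋, ?_⟩⟩
        · have h6 : (2 : ℝ) ^ (k + 1) * (Int.fract (t - s) + s) < 2 ^ (k + 1) * 1 := by
            rw [mul_add, h2s, mul_one, h2k]
            rw [h2k] at h2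
            linarith
          exact lt_of_mul_lt_mul_left h6 hP.le
        · have := Int.self_sub_floor (t - s)
          linarith
      rw [h4, mul_add, h2s]
      constructor <;> linarith
  unfold ind
  by_cases h : ⌊(2 : ℝ) ^ (k + 1) * Int.fract t⌋ = ((2 * i + 1 : ℕ) : ℤ)
  · rw [if_pos h, if_pos (key.1 h)]
  · rw [if_neg h, if_neg fun h' => h (key.2 h')]

/-- primitive of a Haar function -/
theorem prim_haar (k i : ℕ) (p q : ℝ) : |∫ t in p..q, haar k i t| ≤ (1 / 2) ^ (k + 1) := by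
  rcases lt_or_ge i (2 ^ k) with hi | hi
  · obtain ⟨s, hs⟩ : ∃ s : ℝ, s = (1 / 2) ^ (k + 1) := ⟨_, rfl⟩
    have hs0 : 0 < s := by rw [hs]; positivity
    rw [← hs]
    obtain ⟨f, hf⟩ : ∃ f : ℝ → ℝ, f = ind (k + 1) (2 * i) := ⟨_, rfl⟩
    have hii : ∀ a b, IntervalIntegrable f volume a b := by
      rw [hf]
      exact ii_ind (k + 1) (2 * i)
    have h1 : ∀ t, haar k i t = f t - f (t - s) := by
      intro t
      unfold haar
      rw [ind_shift hi, hs, hf]
    simp_rw [h1]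
    have hii2 : IntervalIntegrable (fun t => f (t - s)) volume p q := (hii (p - s) (q - s)).comp_sub_right s |>.mono_set (by simp)
    rw [intervalIntegral.integral_sub (hii p q) hii2, intervalIntegral.integral_comp_sub_right]
    have h2 : (∫ t in p..q, f t) - ∫ t in (p - s)..(q - s), f t = (∫ t in (q - s)..q, f t) - ∫ t in (p - s)..p, f t := by
      have h3 := intervalIntegral.integral_add_adjacent_intervals (hii (p - s) p) (hii p q)
      have h4 := intervalIntegral.integral_add_adjacent_intervals (hii (p - s) (q - s)) (hii (q - s) q)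
      linarith
    rw [h2]
    have h5 : ∀ y : ℝ, 0 ≤ (∫ t in (y - s)..y, f t) ∧ (∫ t in (y - s)..y, f t) ≤ s := by
      intro y
      constructor
      · refine intervalIntegral.integral_nonneg (by linarith) fun t _ => ?_
        rw [hf]
        exact ind_nonneg _ _ _
      · have h6 : (∫ t in (y - s)..y, f t) ≤ ∫ _t in (y - s)..y, (1 : ℝ) := by
          refine intervalIntegral.integral_mono_on (by linarith) (hii _ _) intervalIntegrable_const fun t _ => ?_
          rw [hf]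
          exact ind_le_one _ _ _
        rw [intervalIntegral.integral_const] at h6
        simpa using h6
    have h6 := h5 q
    have h7 := h5 p
    rw [abs_le]
    constructor <;> linarith
  · simp_rw [haar_big hi]
    rw [intervalIntegral.integral_zero, abs_zero]
    positivity

/-- primitive of a Haar function is at most half the length of the interval -/
theorem int_haar_le {α : ℝ} (hα : 0 < α) (k i : ℕ) (c a b : ℝ) (hab : a ≤ b) :
    |∫ x in a..b, haar k i (α * x + c)| ≤ (1 / 2) ^ k / α := by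
  rw [intervalIntegral.integral_comp_mul_add (fun t => haar k i t) hα.ne' c, smul_eq_mul, abs_mul, abs_of_pos (inv_pos.2 hα),
    div_eq_inv_mul]
  refine mul_le_mul_of_nonneg_left ((prim_haar k i _ _).trans ?_) (inv_pos.2 hα).le
  rw [pow_succ]
  have : (0 : ℝ) < (1 / 2) ^ k := by positivity
  linarith

/-- one period of an indicator -/
theorem int_ind_period (k i : ℕ) : ∫ t in (0 : ℝ)..1, ind k i t ≤ (1 / 2) ^ k := by
  rw [intervalIntegral.integral_of_le zero_le_one, integral_Ioc_eq_integral_Ioo]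
  have h2k : (0 : ℝ) < 2 ^ k := by positivity
  have h1 : ∀ t ∈ Ioo (0 : ℝ) 1, ind k i t = (Ico ((i : ℝ) / 2 ^ k) ((i + 1) / 2 ^ k)).indicator (fun _ => (1 : ℝ)) t := by
    intro t ht
    have hfr : Int.fract t = t := Int.fract_eq_self.2 ⟨ht.1.le, ht.2⟩
    unfold ind
    rw [hfr]
    have h2 : ⌊(2 : ℝ) ^ k * t⌋ = (i : ℤ) ↔ t ∈ Ico ((i : ℝ) / 2 ^ k) ((i + 1) / 2 ^ k) := by
      rw [floor_iff, mem_Ico, div_le_iff₀ h2k, lt_div_iff₀ h2k]
      push_cast
      rw [mul_comm t]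
    by_cases h : ⌊(2 : ℝ) ^ k * t⌋ = (i : ℤ)
    · rw [if_pos h, indicator_of_mem (h2.1 h)]
    · rw [if_neg h, indicator_of_notMem fun h' => h (h2.2 h')]
  rw [setIntegral_congr_fun measurableSet_Ioo h1]
  calc ∫ t in Ioo (0 : ℝ) 1, (Ico ((i : ℝ) / 2 ^ k) ((i + 1) / 2 ^ k)).indicator (fun _ => (1 : ℝ)) t
      ≤ ∫ t, (Ico ((i : ℝ) / 2 ^ k) ((i + 1) / 2 ^ k)).indicator (fun _ => (1 : ℝ)) t := by
        refine setIntegral_le_integral ?_ (Eventually.of_forall fun t => indicator_nonneg (fun _ _ => zero_le_one) t)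
        rw [integrable_indicator_iff measurableSet_Ico]
        exact integrableOn_const (by rw [Real.volume_Ico]; exact ENNReal.ofReal_ne_top)
    _ = (1 / 2) ^ k := by
        rw [integral_indicator measurableSet_Ico, setIntegral_const, smul_eq_mul, mul_one, Real.volume_real_Ico_of_le (by gcongr; linarith)]
        rw [← sub_div, add_sub_cancel_left, one_div_pow]

theorem int_ind_le {α : ℝ} (hα : 0 < α) (k i : ℕ) (c a b : ℝ) (hab : a ≤ b) :
    ∫ x in a..b, ind k i (α * x + c) ≤ (α * (b - a) + 1) * (1 / 2) ^ k / α := by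
  rw [intervalIntegral.integral_comp_mul_add (fun t => ind k i t) hα.ne' c, smul_eq_mul, div_eq_inv_mul]
  refine mul_le_mul_of_nonneg_left ?_ (inv_pos.2 hα).le
  obtain ⟨p, hp⟩ : ∃ p : ℝ, p = α * a + c := ⟨_, rfl⟩
  obtain ⟨q, hq⟩ : ∃ q : ℝ, q = α * b + c := ⟨_, rfl⟩
  rw [← hp, ← hq]
  have hpq : p ≤ q := by
    rw [hp, hq]
    have := mul_le_mul_of_nonneg_left hab hα.le
    linarith
  have hlen : α * (b - a) = q - p := by rw [hp, hq]; ring
  rw [hlen]
  obtain ⟨N, hN⟩ : ∃ N : ℕ, N = ⌈q - p⌉₊ := ⟨_, rfl⟩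
  have hN1 : q - p ≤ N := by rw [hN]; exact Nat.le_ceil _
  have hN2 : (N : ℝ) < q - p + 1 := by rw [hN]; exact Nat.ceil_lt_add_one (by linarith)
  have h1 : ∫ t in p..q, ind k i t ≤ ∫ t in p..(p + N), ind k i t := by
    have h2 := intervalIntegral.integral_add_adjacent_intervals (ii_ind k i p q) (ii_ind k i q (p + N))
    have h3 : 0 ≤ ∫ t in q..(p + N), ind k i t := intervalIntegral.integral_nonneg (by linarith) fun t _ => ind_nonneg _ _ _
    linarith
  have h2 : ∫ t in p..(p + N), ind k i t = N * ∫ t in (0 : ℝ)..1, ind k i t := by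
    have h3 := (ind_periodic k i).intervalIntegral_add_zsmul_eq (N : ℤ) p (fun a b => ii_ind k i a b)
    have h4 := (ind_periodic k i).intervalIntegral_add_eq p 0
    rw [zero_add] at h4
    rw [h4] at h3
    simpa using h3
  rw [h2] at h1
  have h3 := int_ind_period k i
  have h4 : (0 : ℝ) ≤ (1 / 2) ^ k := by positivity
  calc ∫ t in p..q, ind k i t ≤ N * ∫ t in (0 : ℝ)..1, ind k i t := h1
    _ ≤ N * (1 / 2) ^ k := mul_le_mul_of_nonneg_left h3 (Nat.cast_nonneg N)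
    _ ≤ (q - p + 1) * (1 / 2) ^ k := mul_le_mul_of_nonneg_right hN2.le h4

variable {θ : ℝ} {c : ℕ → ℝ}

theorem av_abs_le {f : ℝ → ℝ} {C : ℝ} (hC : ∀ t, |f t| ≤ C) (a : ℝ) {ℓ : ℝ} (hℓ : 0 < ℓ) : |av f a ℓ| ≤ C := by
  unfold av
  rw [abs_div, abs_of_pos hℓ, div_le_iff₀ hℓ]
  have h1 := intervalIntegral.norm_integral_le_of_norm_le_const (a := a) (b := a + ℓ) (f := f) (C := C) fun t _ => by
    rw [Real.norm_eq_abs]
    exact hC t
  rw [Real.norm_eq_abs, add_sub_cancel_left, abs_of_pos hℓ] at h1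
  exact h1

theorem A_le_one (k i j : ℕ) {a ℓ : ℝ} (hℓ : 0 < ℓ) : |A θ c k i j a ℓ| ≤ 1 :=
  av_abs_le (fun _ => haar_abs_le k i _) a hℓ

theorem A_le (hθ : 1 < θ) (k i : ℕ) {n j : ℕ} (hj : n ≤ j) {a ℓ : ℝ} (hw : 1 ≤ θ ^ n * ℓ) :
    |A θ c k i j a ℓ| ≤ (1 / 2) ^ k * θ⁻¹ ^ (j - n) := by
  have hθ0 : 0 < θ := by linarith
  have hn0 : 0 < θ ^ n := by positivity
  have hj0 : 0 < θ ^ j := by positivity
  have hℓ : 0 < ℓ := by
    by_contra h
    have : θ ^ n * ℓ ≤ 0 := mul_nonpos_of_nonneg_of_nonpos hn0.le (not_lt.1 h)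
    linarith
  unfold A av
  rw [abs_div, abs_of_pos hℓ, div_le_iff₀ hℓ]
  have h1 := int_haar_le hj0 k i (c j) a (a + ℓ) (by linarith)
  have h2 : (fun x => haar k i (θ ^ j * x + c j)) = fun x => haar k i (u θ c j x) := by
    funext x
    unfold u
    rw [mul_comm]
  rw [h2] at h1
  refine h1.trans ?_
  have h3 : (1 / 2 : ℝ) ^ k / θ ^ j = (1 / 2) ^ k * θ⁻¹ ^ (j - n) * (1 / θ ^ n) := by
    have h4 : θ ^ j = θ ^ (j - n) * θ ^ n := by
      rw [← pow_add]
      congr 1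
      omega
    rw [h4, inv_pow]
    field_simp
  rw [h3]
  refine mul_le_mul_of_nonneg_left ?_ (by positivity)
  rw [div_le_iff₀ hn0]
  linarith

theorem exists_time (hθ : 1 < θ) {ℓ : ℝ} (hℓ : 0 < ℓ) : ∃ n : ℕ, 1 ≤ θ ^ n * ℓ := by
  obtain ⟨n, hn⟩ := pow_unbounded_of_one_lt (1 / ℓ) hθ
  refine ⟨n, ?_⟩
  rw [div_lt_iff₀ hℓ] at hn
  exact hn.le

theorem inv_lt_one' (hθ : 1 < θ) : 0 < θ⁻¹ ∧ θ⁻¹ < 1 := ⟨inv_pos.2 (by linarith), inv_lt_one_of_one_lt₀ hθ⟩

theorem geo_sum (hθ : 1 < θ) : (1 - θ⁻¹)⁻¹ = θ / (θ - 1) := by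
  have h1 : θ ≠ 0 := by linarith
  have h2 : θ - 1 ≠ 0 := by linarith
  have h3 : 1 - θ⁻¹ = (θ - 1) / θ := by field_simp
  rw [h3, inv_div]

theorem summable_A (hθ : 1 < θ) (k i : ℕ) (a : ℝ) {ℓ : ℝ} (hℓ : 0 < ℓ) : Summable fun j => A θ c k i j a ℓ := by
  obtain ⟨n, hn⟩ := exists_time hθ hℓ
  obtain ⟨h0, h1⟩ := inv_lt_one' hθ
  rw [← summable_nat_add_iff n]
  refine Summable.of_norm_bounded (g := fun j => (1 / 2) ^ k * θ⁻¹ ^ j) ((summable_geometric_of_lt_one h0.le h1).mul_left _) fun j => ?_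
  have h2 := A_le (c := c) hθ k i (n := n) (j := j + n) (by omega) (a := a) hn
  rw [Nat.add_sub_cancel] at h2
  rw [Real.norm_eq_abs]
  exact h2

theorem pos_of_win (hθ : 1 < θ) {n : ℕ} {ℓ : ℝ} (hw : 1 ≤ θ ^ n * ℓ) : 0 < ℓ := by
  have hn0 : 0 < θ ^ n := pow_pos (by linarith) n
  by_contra h
  have : θ ^ n * ℓ ≤ 0 := mul_nonpos_of_nonneg_of_nonpos hn0.le (not_lt.1 h)
  linarith

/-- the tail of the martingale -/
theorem M_tail (hθ : 1 < θ) (k i : ℕ) {n m : ℕ} (hm : n ≤ m) {a ℓ : ℝ} (hw : 1 ≤ θ ^ n * ℓ) :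
    |M θ c k i a ℓ - ∑ j ∈ Finset.range m, A θ c k i j a ℓ| ≤ (1 / 2) ^ k * θ⁻¹ ^ (m - n) * (θ / (θ - 1)) := by
  have hℓ := pos_of_win hθ hw
  obtain ⟨h0, h1⟩ := inv_lt_one' hθ
  have hs := summable_A (c := c) hθ k i a hℓ
  have h2 : M θ c k i a ℓ - ∑ j ∈ Finset.range m, A θ c k i j a ℓ = ∑' j, A θ c k i (j + m) a ℓ := by
    unfold M
    rw [← hs.sum_add_tsum_nat_add m]
    ring
  rw [h2, ← geo_sum hθ, ← Real.norm_eq_abs]
  have h3 : HasSum (fun j : ℕ => (1 / 2) ^ k * θ⁻¹ ^ (m - n) * θ⁻¹ ^ j) ((1 / 2) ^ k * θ⁻¹ ^ (m - n) * (1 - θ⁻¹)⁻¹) :=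
    (hasSum_geometric_of_lt_one h0.le h1).mul_left _
  refine tsum_of_norm_bounded h3 fun j => ?_
  rw [Real.norm_eq_abs]
  refine (A_le hθ k i (n := n) (j := j + m) (by omega) hw).trans (le_of_eq ?_)
  rw [mul_assoc, ← pow_add]
  congr 2
  omega

theorem M_le (hθ : 1 < θ) (k i : ℕ) {n : ℕ} {a ℓ : ℝ} (hw : 1 ≤ θ ^ n * ℓ) : |M θ c k i a ℓ| ≤ n + θ / (θ - 1) := by
  have hℓ := pos_of_win hθ hw
  have h1 := M_tail (c := c) hθ k i (le_refl n) (a := a) hw
  rw [Nat.sub_self, pow_zero, mul_one] at h1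
  have h2 : |∑ j ∈ Finset.range n, A θ c k i j a ℓ| ≤ n := by
    refine (Finset.abs_sum_le_sum_abs _ _).trans ((Finset.sum_le_sum fun j _ => A_le_one k i j hℓ).trans (le_of_eq ?_))
    simp
  have h3 : (1 / 2 : ℝ) ^ k * (θ / (θ - 1)) ≤ 1 * (θ / (θ - 1)) := by
    refine mul_le_mul_of_nonneg_right (pow_le_one₀ (by norm_num) (by norm_num)) ?_
    exact div_nonneg (by linarith) (by linarith)
  have h4 : M θ c k i a ℓ = (M θ c k i a ℓ - ∑ j ∈ Finset.range n, A θ c k i j a ℓ) + ∑ j ∈ Finset.range n, A θ c k i j a ℓ := by ring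
  rw [h4]
  refine (abs_add_le _ _).trans ?_
  linarith

theorem A_children (k i j : ℕ) (a : ℝ) {ℓ : ℝ} (hℓ : 0 < ℓ) {B : ℕ} (hB : 1 ≤ B) :
    ∑ b ∈ Finset.range B, A θ c k i j (a + b * (ℓ / B)) (ℓ / B) = B * A θ c k i j a ℓ := by
  have hB0 : (0 : ℝ) < B := by exact_mod_cast hB
  unfold A av
  rw [← Finset.sum_div]
  have h1 := intervalIntegral.sum_integral_adjacent_intervals (μ := volume) (f := fun x => haar k i (u θ c j x)) (a := fun b : ℕ => a + b * (ℓ / B)) (n := B)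
    fun b _ => ii_haar_u θ c k i j _ _
  have h2 : ∑ b ∈ Finset.range B, ∫ x in (a + b * (ℓ / B))..(a + b * (ℓ / B) + ℓ / B), haar k i (u θ c j x) =
      ∫ x in a..(a + ℓ), haar k i (u θ c j x) := by
    have h3 : ∀ b : ℕ, a + (b : ℝ) * (ℓ / B) + ℓ / B = a + ((b + 1 : ℕ) : ℝ) * (ℓ / B) := by
      intro b
      push_cast
      ring
    simp_rw [h3]
    rw [h1]
    congr 1
    · simp
    · field_simp
  rw [h2]
  field_simp

theorem M_children (hθ : 1 < θ) (k i : ℕ) (a : ℝ) {ℓ : ℝ} (hℓ : 0 < ℓ) {B : ℕ} (hB : 1 ≤ B) :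
    ∑ b ∈ Finset.range B, M θ c k i (a + b * (ℓ / B)) (ℓ / B) = B * M θ c k i a ℓ := by
  have hB0 : (0 : ℝ) < B := by exact_mod_cast hB
  unfold M
  rw [← Summable.tsum_finsetSum fun b _ => summable_A hθ k i _ (by positivity), ← tsum_mul_left]
  exact tsum_congr fun j => A_children k i j a hℓ hB

/-- the indicators of level at most `K` depend only on `⌊2 ^ K t⌋` -/
theorem ind_congr {K m i : ℕ} (hm : m ≤ K) {s t : ℝ} (h : ⌊(2 : ℝ) ^ K * s⌋ = ⌊(2 : ℝ) ^ K * t⌋) : ind m i s = ind m i t := by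
  have h1 : ∀ (y : ℝ) (l : ℕ), l ≤ K → ⌊(2 : ℝ) ^ l * y⌋ = ⌊(2 : ℝ) ^ K * y⌋ / ((2 ^ (K - l) : ℕ) : ℤ) := by
    intro y l hl
    rw [← Int.floor_div_natCast]
    congr 1
    push_cast
    have h2 : (2 : ℝ) ^ K = 2 ^ l * 2 ^ (K - l) := by
      rw [← pow_add]
      congr 1
      omega
    rw [h2]
    field_simp
  have h2 : ∀ y : ℝ, ⌊(2 : ℝ) ^ m * Int.fract y⌋ = ⌊(2 : ℝ) ^ m * y⌋ - 2 ^ m * ⌊y⌋ := by
    intro y
    rw [← Int.self_sub_floor, mul_sub]
    have h3 : (2 : ℝ) ^ m * (⌊y⌋ : ℝ) = ((2 ^ m * ⌊y⌋ : ℤ) : ℝ) := by push_cast; ring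
    rw [h3, Int.floor_sub_intCast]
  have h0 : ∀ y : ℝ, ⌊y⌋ = ⌊(2 : ℝ) ^ K * y⌋ / ((2 ^ K : ℕ) : ℤ) := by
    intro y
    have h3 := h1 y 0 (Nat.zero_le _)
    rwa [pow_zero, one_mul, Nat.sub_zero] at h3
  unfold ind
  rw [h2 s, h2 t, h1 s m hm, h1 t m hm, h0 s, h0 t, h]

/-- under `NB` the Haar functions of level `< K` are constant on the window at the times before `n - r` -/
theorem haar_const {n r K : ℕ} {a ℓ : ℝ} (h : NB θ c n r K a ℓ) {k : ℕ} (hk : k < K) (i : ℕ) {j : ℕ} (hj : j + r < n)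
    {x : ℝ} (hx : x ∈ Icc a (a + ℓ)) : haar k i (u θ c j x) = haar k i (u θ c j a) := by
  have h1 := h j hj x hx
  unfold haar
  rw [ind_congr (show k + 1 ≤ K by omega) h1, ind_congr (show k + 1 ≤ K by omega) h1]

theorem A_const {n r K : ℕ} {a ℓ : ℝ} (h : NB θ c n r K a ℓ) {k : ℕ} (hk : k < K) (i : ℕ) {j : ℕ} (hj : j + r < n)
    {a' ℓ' : ℝ} (ha : a ≤ a') (hℓ' : 0 < ℓ') (he : a' + ℓ' ≤ a + ℓ) : A θ c k i j a' ℓ' = haar k i (u θ c j a) := by
  unfold A av
  have h1 : ∫ x in a'..(a' + ℓ'), haar k i (u θ c j x) = ∫ _x in a'..(a' + ℓ'), haar k i (u θ c j a) := by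
    refine intervalIntegral.integral_congr fun x hx => ?_
    rw [uIcc_of_le (by linarith)] at hx
    exact haar_const h hk i hj ⟨ha.trans hx.1, hx.2.trans he⟩
  rw [h1, intervalIntegral.integral_const, add_sub_cancel_left, smul_eq_mul]
  field_simp

/-- the sum of the first `n` values and the martingale -/
theorem sum_sub_M (hθ : 1 < θ) {n r K : ℕ} {a ℓ : ℝ} (hw : 1 ≤ θ ^ n * ℓ) (hℓ : 0 < ℓ) (h : NB θ c n r K a ℓ) {k : ℕ}
    (hk : k < K) (i : ℕ) {x : ℝ} (hx : x ∈ Icc a (a + ℓ)) :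
    |∑ j ∈ Finset.range n, haar k i (u θ c j x) - M θ c k i a ℓ| ≤ 2 * r + θ / (θ - 1) := by
  have h1 := M_tail (c := c) hθ k i (le_refl n) (a := a) hw
  rw [Nat.sub_self, pow_zero, mul_one] at h1
  have h3 : (1 / 2 : ℝ) ^ k * (θ / (θ - 1)) ≤ 1 * (θ / (θ - 1)) := by
    refine mul_le_mul_of_nonneg_right (pow_le_one₀ (by norm_num) (by norm_num)) ?_
    exact div_nonneg (by linarith) (by linarith)
  have h4 : |∑ j ∈ Finset.range n, (haar k i (u θ c j x) - A θ c k i j a ℓ)| ≤ 2 * r := by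
    refine (Finset.abs_sum_le_sum_abs _ _).trans ?_
    have h5 : ∀ j ∈ Finset.range n, |haar k i (u θ c j x) - A θ c k i j a ℓ| ≤ if n ≤ j + r then 2 else 0 := by
      intro j _
      by_cases hj : n ≤ j + r
      · rw [if_pos hj]
        refine (abs_sub _ _).trans ?_
        have h6 := haar_abs_le k i (u θ c j x)
        have h7 := A_le_one (θ := θ) (c := c) k i j (a := a) hℓ
        linarith
      · rw [if_neg hj, haar_const h hk i (by omega) hx, A_const h hk i (by omega) le_rfl hℓ le_rfl, sub_self, abs_zero]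
    refine (Finset.sum_le_sum h5).trans ?_
    rw [← Finset.sum_filter, Finset.sum_const, nsmul_eq_mul]
    have h6 : ((Finset.range n).filter fun j => n ≤ j + r).card ≤ r := by
      have h7 : (Finset.range n).filter (fun j => n ≤ j + r) ⊆ Finset.Ico (n - r) n := by
        intro j hj
        rw [Finset.mem_filter, Finset.mem_range] at hj
        rw [Finset.mem_Ico]
        omega
      refine (Finset.card_le_card h7).trans ?_
      rw [Nat.card_Ico]
      omega
    have h8 : (((Finset.range n).filter fun j => n ≤ j + r).card : ℝ) ≤ r := by exact_mod_cast h6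
    linarith
  have h5 : ∑ j ∈ Finset.range n, haar k i (u θ c j x) - M θ c k i a ℓ =
      ∑ j ∈ Finset.range n, (haar k i (u θ c j x) - A θ c k i j a ℓ) - (M θ c k i a ℓ - ∑ j ∈ Finset.range n, A θ c k i j a ℓ) := by
    rw [Finset.sum_sub_distrib]
    ring
  rw [h5]
  refine (abs_sub _ _).trans ?_
  linarith

end Pool.Agent.Helper34.LD
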